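import Mathlib
import Pool.Agent.H16.FW.Thm
import Pool.Agent.H16.FW.CTP
import Pool.Agent.H16.FW.PNZ
import Pool.Agent.H16.FW.BLN
import Pool.Agent.H16.FW.BLP
import Pool.Agent.H16.FW.BLF
import Pool.Agent.H16.FW.BLI

set_option autoImplicit false

/-!
# Graphs of feedback vertex number at most four (MP_e6539c_co)

A finite multigraph is given by two maps `s t : E → V`, the ends of the edges.  Its feedback vertex
number is at most `k` if some set of at most `k` vertices meets all circuits which are not loops.
We show that a graph without isthmuses and of feedback vertex number at most four is the union of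
two cycles if and only if none of its components can be contracted to the Petersen graph, and that
this is not true for feedback vertex number five.  In particular the 4-flow conjecture of Tutte
holds for the graphs of feedback vertex number at most four.

Proof.  Take a contraction of the graph of the same kind such that each flow over the group `F` of
order four of the contraction extends to a flow of the given graph, with as few edges as possible.
It has no circuits with less than five edges and all degrees are at least three.  Let `x₁, ..., x₄`
be vertices which meet all circuits, let `v` be a vertex of the forest which is left, and cut the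
forest at `v`.  For each piece consider the set of all vectors in `F⁴` of the sums of the values of
the edges between the piece and `x₁, ..., x₄`, for all choices of nonzero values of the edges of the
piece for which the sum at each of its vertices is zero except for the vertex next to `v`.  If more
than 64 vectors are realized by the two sides of an edge together then the forest has no
component besides; so we can choose `v` such that the pieces realize at most 32 vectors each.  There
are only 504 such local states up to symmetry (`FW/Tab`).  A computation with all of their
combinations (`FW/Ker`, about 117000 states, checked by the kernel in `FW/K`) shows that a component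
of the forest either realizes all vectors which can be needed, and then the whole graph has a
nowhere-zero flow, or that it has few vertices of odd degree (`FW/Tot`).  So there are at most
sixteen vertices of odd degree, and the theorem of the library on graphs with at most sixteen
vertices of odd degree (`FW/L/Main`) applies.  The Blanusa snark has feedback vertex number five,
no nowhere-zero 4-flow and no contraction to the Petersen graph (`FW/BLN`, `FW/BLP`, `FW/BLF`).
-/

namespace Pool.Agent.Results.MP_e6539c_co.FeedbackVertexFour

open Finset

variable {V E : Type}

/-- The vertices `u` and `v` are joined by a path with edges in `A`. -/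
def Linked (s t : E → V) (A : Set E) (u v : V) : Prop :=
  Relation.ReflTransGen (fun x y => ∃ e ∈ A, (s e = x ∧ t e = y) ∨ (s e = y ∧ t e = x)) u v

/-- No edge is an isthmus: the ends of each edge `e` are joined by a path without `e`. -/
def NoIsthmus (s t : E → V) : Prop := ∀ e, Linked s t {e}ᶜ (s e) (t e)

/-- The degree of `v` in the subgraph with edge set `C` (a loop counts twice). -/
def degree [DecidableEq V] (s t : E → V) (C : Finset E) (v : V) : ℕ :=
  ∑ e ∈ C, ((if s e = v then 1 else 0) + (if t e = v then 1 else 0))

/-- The edge set `C` is a cycle: all degrees are even. -/
def IsCycle [DecidableEq V] (s t : E → V) (C : Finset E) : Prop := ∀ v, Even (degree s t C v)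

/-- The edge set is the union of two cycles. -/
def TwoCycles [DecidableEq V] [Fintype E] [DecidableEq E] (s t : E → V) : Prop :=
  ∃ C₁ C₂ : Finset E, IsCycle s t C₁ ∧ IsCycle s t C₂ ∧ C₁ ∪ C₂ = univ

/-- Some set of at most `k` vertices meets all circuits which are not loops: it contains an end of
an edge of each nonempty cycle without loops. -/
def FeedbackNumberLe [DecidableEq V] (s t : E → V) (k : ℕ) : Prop :=
  ∃ X : Finset V, X.card ≤ k ∧
    ∀ C : Finset E, C.Nonempty → IsCycle s t C → ∃ e ∈ C, s e = t e ∨ s e ∈ X ∨ t e ∈ X

/-- The vertex set `B` is not empty and connected. -/
def Connected (s t : E → V) (B : Set V) : Prop :=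
  B.Nonempty ∧ ∀ u ∈ B, ∀ v ∈ B, Linked s t {e | s e ∈ B ∧ t e ∈ B} u v

/-- The graph has a Petersen minor: there are ten disjoint connected vertex sets, indexed by the
pairs of elements of `Fin 5`, with an edge between any two sets with disjoint indices. -/
def HasPetersenMinor (s t : E → V) : Prop :=
  ∃ B : {p : Finset (Fin 5) // p.card = 2} → Set V,
    (∀ i, Connected s t (B i)) ∧
    (∀ i j, i ≠ j → Disjoint (B i) (B j)) ∧
    ∀ i j, Disjoint i.1 j.1 → ∃ e, (s e ∈ B i ∧ t e ∈ B j) ∨ (s e ∈ B j ∧ t e ∈ B i)

/-- Some connected component of the graph can be contracted to the Petersen graph: there are ten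
disjoint connected vertex sets, indexed by the pairs of elements of `Fin 5`, with exactly one edge
between any two sets with disjoint indices, and there are no other edges between different sets or
from one of the sets to a vertex outside of all of them. -/
def ContractsToPetersen (s t : E → V) : Prop :=
  ∃ B : {p : Finset (Fin 5) // p.card = 2} → Set V,
    (∀ i, Connected s t (B i)) ∧
    (∀ i j, i ≠ j → Disjoint (B i) (B j)) ∧
    (∀ i j, Disjoint i.1 j.1 → ∃! e, (s e ∈ B i ∧ t e ∈ B j) ∨ (s e ∈ B j ∧ t e ∈ B i)) ∧
    ∀ e i, (s e ∈ B i → ∃ j, t e ∈ B j ∧ (i = j ∨ Disjoint i.1 j.1)) ∧
      (t e ∈ B i → ∃ j, s e ∈ B j ∧ (i = j ∨ Disjoint i.1 j.1))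

/-- (1) The following holds for the natural number `k` if and only if `k ≤ 4`: each finite
multigraph without isthmuses in which some set of at most `k` vertices meets all circuits except for
loops is the union of two cycles if and only if none of its components can be contracted to the
Petersen graph.
(2) Each finite multigraph without isthmuses and without Petersen minor in which some set of at most
four vertices meets all circuits except for loops is the union of two cycles. -/
theorem result :
    (∀ k : ℕ, (∀ (V E : Type) [Fintype V] [DecidableEq V] [Fintype E] [DecidableEq E]
      (s t : E → V), NoIsthmus s t → FeedbackNumberLe s t k →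
        (TwoCycles s t ↔ ¬ ContractsToPetersen s t)) ↔ k ≤ 4) ∧
    ∀ (V E : Type) [Fintype V] [DecidableEq V] [Fintype E] [DecidableEq E] (s t : E → V),
      NoIsthmus s t → ¬ HasPetersenMinor s t → FeedbackNumberLe s t 4 → TwoCycles s t := by
  refine ⟨fun k => ⟨fun H => ?_, fun hk => ?_⟩, ?_⟩
  · by_contra hk
    obtain ⟨h1, ⟨X, h2, h3⟩, h4, h5⟩ := H16.FW.sharp H16.FW.bln H16.FW.blp H16.FW.blf H16.FW.bli
      H16.FW.ctp
    have h6 := H (Fin 18) (Fin 27) H16.FW.bls H16.FW.blt h1 ⟨X, by omega, h3⟩
    exact h4 (h6.2 h5)
  · intro V E _ _ _ _ s t hn ⟨X, hX, hM⟩
    exact (H16.FW.res4 H16.FW.fvn4 H16.FW.ctp H16.FW.pnz hn (hX.trans hk) hM).1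
  · intro V E _ _ _ _ s t hn hP ⟨X, hX, hM⟩
    exact (H16.FW.res4 H16.FW.fvn4 H16.FW.ctp H16.FW.pnz hn hX hM).2 hP

end Pool.Agent.Results.MP_e6539c_co.FeedbackVertexFour
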