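import Mathlib
import Pool.Agent.H16.FV.Fin

set_option autoImplicit false

/-!
# Two cycles and the feedback vertex number (MP_e6539c_co)

A finite multigraph is given by two maps `s t : E → V`, the ends of the edges.  Its feedback vertex
number is at most `k` if some set of at most `k` vertices meets all circuits which are not loops.
We show that for every `k` the 4-flow conjecture of Tutte for the graphs of feedback vertex number
at most `k` is a finite problem: such a graph without isthmuses can be contracted, without a change
of the answer to the question whether it is the union of two cycles, to a graph of the same kind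
with at most `vertexBound k` vertices, of girth at least five and with all degrees at least three.
In particular there are only finitely many graphs of feedback vertex number at most `k` which are
minimal for contraction with the property that they have no isthmus and are not the union of two
cycles.

Proof.  Take a contraction of this kind with as few edges as possible.  It has no circuits of length
two, three or four and no vertices of degree two.  Let `X` be a set of at most `k` vertices which
meets all circuits.  The vertices outside of `X` with two neighbours in `X` are at most `C(k, 2)`,
since there are no circuits of length four; hence the forest `G - X` has few leaves and branching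
vertices, and in a large graph there is a long path in which all vertices have degree three and one
neighbour in `X`.  By the pigeonhole principle it has a section in which each type of pairs of
consecutive neighbours in `X` which occurs at all occurs at least `14 C(k + 1, 2) + 8` times
(`H16/FV/Pig`).  The contraction of this section together with its neighbours in `X` keeps the
answer: each flow of the quotient extends, by a lemma about walks with prescribed sums at the labels
(`H16/FV/LEMW`, `H16/FV/Solve`); and it keeps the feedback vertex number.
-/

namespace Pool.Agent.Results.MP_e6539c_co.FeedbackVertexKernel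

open Finset

variable {V E : Type}

/-- The vertices `u` and `v` are joined by a path with edges in `A`. -/
def Linked (s t : E → V) (A : Set E) (u v : V) : Prop :=
  Relation.ReflTransGen (fun x y => ∃ e ∈ A, (s e = x ∧ t e = y) ∨ (s e = y ∧ t e = x)) u v

/-- No edge is an isthmus: the ends of each edge `e` are joined by a path without `e`. -/
def NoIsthmus (s t : E → V) : Prop := ∀ e, Linked s t {e}ᶜ (s e) (t e)

/-- The degree of `v` in the subgraph with edge set `C` (a loop counts twice). -/
def degree [DecidableEq V] (s t : E → V) (C : Finset E) (v : V) : ℕ :=
  ∑ e ∈ C, ((if s e = v then 1 else 0) + (if t e = v then 1 else 0))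

/-- The edge set `C` is a cycle: all degrees are even. -/
def IsCycle [DecidableEq V] (s t : E → V) (C : Finset E) : Prop := ∀ v, Even (degree s t C v)

/-- The edge set is the union of two cycles. -/
def TwoCycles [DecidableEq V] [Fintype E] [DecidableEq E] (s t : E → V) : Prop :=
  ∃ C₁ C₂ : Finset E, IsCycle s t C₁ ∧ IsCycle s t C₂ ∧ C₁ ∪ C₂ = univ

/-- Some set of at most `k` vertices meets all circuits which are not loops: it contains an end of
an edge of each nonempty cycle without loops. -/
def FeedbackNumberLe [DecidableEq V] (s t : E → V) (k : ℕ) : Prop :=
  ∃ X : Finset V, X.card ≤ k ∧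
    ∀ C : Finset E, C.Nonempty → IsCycle s t C → ∃ e ∈ C, s e = t e ∨ s e ∈ X ∨ t e ∈ X

/-- The graph has a Petersen minor: there are ten disjoint connected vertex sets, indexed by the
pairs of elements of `Fin 5`, with an edge between any two sets with disjoint indices. -/
def HasPetersenMinor (s t : E → V) : Prop :=
  ∃ B : {p : Finset (Fin 5) // p.card = 2} → Set V,
    (∀ i, (B i).Nonempty ∧ ∀ u ∈ B i, ∀ v ∈ B i, Linked s t {e | s e ∈ B i ∧ t e ∈ B i} u v) ∧
    (∀ i j, i ≠ j → Disjoint (B i) (B j)) ∧
    ∀ i j, Disjoint i.1 j.1 → ∃ e, (s e ∈ B i ∧ t e ∈ B j) ∨ (s e ∈ B j ∧ t e ∈ B i)

/-- The edges which join `v` to another vertex. -/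
def links [DecidableEq V] [Fintype E] (s t : E → V) (v : V) : Finset E :=
  univ.filter (fun e => (s e = v ∧ t e ≠ v) ∨ (s e ≠ v ∧ t e = v))

/-- The number of the vertices which are joined to another vertex. -/
def essentialVertices [Fintype V] [DecidableEq V] [Fintype E] (s t : E → V) : ℕ :=
  (univ.filter (fun v => (links s t v).Nonempty)).card

/-- Apart from loops there are no circuits with fewer than five edges, and each vertex which is
joined to another vertex is incident with at least three edges which are not loops. -/
def Reduced [DecidableEq V] [Fintype E] (s t : E → V) : Prop :=
  (∀ C : Finset E, C.Nonempty → IsCycle s t C → (∀ e ∈ C, s e ≠ t e) → 5 ≤ C.card) ∧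
    ∀ v, (links s t v).Nonempty → 3 ≤ (links s t v).card

/-- The classes of the map `f` are connected. -/
def ConnectedClasses (s t : E → V) (f : V → V) : Prop :=
  ∀ u w, f u = f w → Linked s t {e | f (s e) = f u ∧ f (t e) = f u} u w

/-- The map which identifies `b` with `a`. -/
def identify [DecidableEq V] (a b v : V) : V := if v = b then a else v

/-- The bound for the number of the vertices. -/
def vertexBound (k : ℕ) : ℕ :=
  k + 2 * k * (k - 1) * (7 * k ^ 2 + 7 * k + 9) ^ (k * (k + 1) / 2)

/-- Let `k` be a natural number.
(1) Each finite multigraph without isthmuses and of feedback vertex number at most `k` can be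
contracted (to the graph with the same edges, whose vertices are the values of a map `f` with
connected classes; the edges inside the classes become loops) such that the contracted graph is the
union of two cycles if and only if the given graph is, has feedback vertex number at most `k`, has
apart from loops only circuits with at least five edges, has degrees at least three and at most
`vertexBound k` vertices which are joined to another vertex.
(2) If Q1 holds for the graphs of feedback vertex number at most `k` with at most `vertexBound k`
vertices, girth at least five and degrees at least three, then Q1 holds for all graphs of feedback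
vertex number at most `k`.
(3) Each graph without isthmuses and of feedback vertex number at most `k` which is not the union of
two cycles, while the contraction of any edge gives the union of two cycles, has at most
`vertexBound k` vertices (which are joined to another vertex). -/
theorem result (k : ℕ) :
    (∀ (V E : Type) [Fintype V] [DecidableEq V] [Fintype E] [DecidableEq E] (s t : E → V),
      NoIsthmus s t → FeedbackNumberLe s t k →
      ∃ f : V → V, ConnectedClasses s t f ∧
        (TwoCycles (fun e => f (s e)) (fun e => f (t e)) ↔ TwoCycles s t) ∧
        FeedbackNumberLe (fun e => f (s e)) (fun e => f (t e)) k ∧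
        Reduced (fun e => f (s e)) (fun e => f (t e)) ∧
        essentialVertices (fun e => f (s e)) (fun e => f (t e)) ≤ vertexBound k) ∧
    ((∀ (V E : Type) [Fintype V] [DecidableEq V] [Fintype E] [DecidableEq E] (s t : E → V),
        Fintype.card V ≤ vertexBound k → (∀ e, s e ≠ t e) →
        (∀ C : Finset E, C.Nonempty → IsCycle s t C → 5 ≤ C.card) →
        (∀ v, 3 ≤ degree s t univ v) → FeedbackNumberLe s t k →
        NoIsthmus s t → ¬ HasPetersenMinor s t → TwoCycles s t) →
      ∀ (V E : Type) [Fintype V] [DecidableEq V] [Fintype E] [DecidableEq E] (s t : E → V),
        FeedbackNumberLe s t k → NoIsthmus s t → ¬ HasPetersenMinor s t → TwoCycles s t) ∧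
    ∀ (V E : Type) [Fintype V] [DecidableEq V] [Fintype E] [DecidableEq E] (s t : E → V),
      NoIsthmus s t → FeedbackNumberLe s t k → ¬ TwoCycles s t →
      (∀ e, s e ≠ t e → TwoCycles (fun e' => identify (s e) (t e) (s e'))
        (fun e' => identify (s e) (t e) (t e'))) →
      Reduced s t ∧ essentialVertices s t ≤ vertexBound k := by
  refine ⟨?_, ?_, ?_⟩
  · intro V E _ _ _ _ s t hn ⟨X, hX, hM⟩
    obtain ⟨f, h1, h2, h3, h4, h5, _⟩ := H16.FV.kernel (s := s) (t := t) hn hX hM
    exact ⟨f, h1, h2, h3, ⟨h4.girth, h4.deg⟩, h5⟩
  · intro H V E _ _ _ _ s t ⟨X, hX, hM⟩ hn hP
    refine H16.FV.reduction k ?_ hn hX hM hP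
    intro V E _ _ _ _ s t h1 h2 h3 h4 h5 h6 h7
    exact H V E s t h1 h2 h3 h4 h6 h5 h7
  · intro V E _ _ _ _ s t hn ⟨X, hX, hM⟩ hT hc
    obtain ⟨h1, h2⟩ := H16.FV.critical (s := s) (t := t) hn hT hc hX hM
    exact ⟨⟨h1.girth, h1.deg⟩, h2⟩

end Pool.Agent.Results.MP_e6539c_co.FeedbackVertexKernel
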