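import Pool.Agent.H79.FF.Lift
import Pool.Agent.H79.LF.N399_TB_Cyc

set_option autoImplicit false

/-!
# Covering Petersen-minor-free graphs by two cycles: sums of order at most four (MP_e6539c_co)

The class `Tame` (in `Pool.Agent.H79.FF.Defs`) is the least class of finite simple graphs which

* contains the basic graphs: those with at most seventeen vertices which are not isolated, those of
  path-width at most five, those without circuits with more than fifteen vertices, those in which
  some nine vertices meet all edges, those without nine disjoint edges, those in which some five
  vertices meet all paths with three vertices, and those without a cube minor;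
* contains all minors of its members;
* contains a graph `K` if its vertices can be divided into `X`, `Y` and a set `S` with at most four
  elements, such that no edge joins `X` and `Y`, and the graphs `side K X S` and `side K Y S` are in
  the class: the first is the subgraph induced by `X ∪ S` together with `|S| - 2` new vertices and
  all edges which join elements of `S`, new vertices, or an element of `S` and a new vertex.

Theorem. Let `G` be a finite graph, loops and parallel edges allowed, without isthmus and without a
Petersen minor, and such that the simple graph of adjacent pairs of vertices of `G` is in `Tame`.
Then the edge set of `G` is the union of two cycles.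

For example, `G` may have a tree decomposition in which the intersections of adjacent bags have at
most four elements, such that some bags induce, with the additional edges and vertices, graphs of
path-width at most five, other bags graphs without long circuits, others graphs without a cube minor,
and so on. None of the parameters is bounded on the class.

Proof. Let `H` be a graph without a Petersen minor and without a nowhere-zero 4-flow which is minimal
under deletion and contraction. `H` is internally 5-connected: of the two sides of a separation of
order `k ≤ 4` one has at most `k - 2` vertices (`N399/TB` of the library). Let `K` be a sum along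
`S` of which `H` is a minor. The branch sets which meet `S` are at most four vertices of `H`, which
separate the branch sets inside of `X` from those inside of `Y`. So at most `|S| - 2` branch sets
are inside of `X`, say. They can be replaced by the new vertices, and every other branch set can
be restricted to `Y ∪ S`, where it remains connected as the elements of `S` are adjacent to each
other. Hence `H` is a minor of `side K Y S`. So the class of graphs which have no such `H` as a minor
is closed under sums and minors. It contains the basic graphs by the theorems of the library, and by
our theorem that `H` has a cube minor, because all basic classes are closed under minors.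
-/

namespace Pool.Agent.Results.MP_e6539c_co.SumsOfOrderFour

open Pool.Agent.H79.FF

variable {V E : Type}

/-- The vertices `x` and `y` are joined by an edge different from `e`. -/
def AdjWithout (src dst : E → V) (e : E) (x y : V) : Prop :=
  ∃ e', e' ≠ e ∧ ((src e' = x ∧ dst e' = y) ∨ (src e' = y ∧ dst e' = x))

/-- The edge `e` is an isthmus: its ends are not joined by a walk that avoids `e`. -/
def IsIsthmus (src dst : E → V) (e : E) : Prop :=
  ¬ Relation.ReflTransGen (AdjWithout src dst e) (src e) (dst e)

/-- `C` is a cycle (a disjoint union of circuits): every vertex has even degree in `(V, C)`; a loop
counts twice. -/
def IsCycle [DecidableEq V] (src dst : E → V) (C : Finset E) : Prop :=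
  ∀ v : V, Even ((C.filter (fun e => src e = v)).card + (C.filter (fun e => dst e = v)).card)

/-- The vertices of the Petersen graph: the `2`-element subsets of a `5`-element set; two of them
are adjacent if they are disjoint. -/
def PetVertex : Type := {s : Finset (Fin 5) // s.card = 2}

/-- The vertices `x` and `y` lie in `B` and are joined by an edge. -/
def AdjIn (src dst : E → V) (B : Set V) (x y : V) : Prop :=
  x ∈ B ∧ y ∈ B ∧ ∃ e, (src e = x ∧ dst e = y) ∨ (src e = y ∧ dst e = x)

/-- The multigraph has a Petersen graph minor: there are nonempty disjoint vertex sets `B s`, one
for each vertex `s` of the Petersen graph, such that any two vertices of `B s` are joined by a walk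
in `B s`, and such that an edge joins `B s` and `B t` if `s` and `t` are adjacent. -/
def HasPetersenMinor (src dst : E → V) : Prop :=
  ∃ B : PetVertex → Set V, (∀ s, (B s).Nonempty) ∧
    (∀ s t, s ≠ t → Disjoint (B s) (B t)) ∧
    (∀ s, ∀ x ∈ B s, ∀ y ∈ B s, Relation.ReflTransGen (AdjIn src dst (B s)) x y) ∧
    ∀ s t : PetVertex, Disjoint s.1 t.1 →
      ∃ e, (src e ∈ B s ∧ dst e ∈ B t) ∨ (src e ∈ B t ∧ dst e ∈ B s)

/-- Every finite multigraph without isthmuses and without a Petersen minor whose simple graph of
adjacent pairs is in the class `Tame` is the union of two cycles. -/
theorem result (V E : Type) [Fintype V] [DecidableEq V] [Fintype E] [DecidableEq E]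
    (src dst : E → V) (hK : Tame (under src dst)) (hiso : ∀ e, ¬ IsIsthmus src dst e)
    (hP : ¬ HasPetersenMinor src dst) :
    ∃ C₁ C₂ : Finset E, IsCycle src dst C₁ ∧ IsCycle src dst C₂ ∧ C₁ ∪ C₂ = Finset.univ :=
  Pool.Agent.N399.TB.two_cycles (fun h1 h2 => hK.good.flow h1 h2) hiso hP

end Pool.Agent.Results.MP_e6539c_co.SumsOfOrderFour
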